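import Pool.Agent.helper62.VQ.SpecE

/-! # Row vqe:ALP (MP_07c750_an): the holonomies are antilipschitz -/

set_option autoImplicit false

open scoped MatrixGroups ContDiff Topology UpperHalfPlane
open UpperHalfPlane MeasureTheory Filter Set

namespace Pool.Agent.VQE

open Pool.Agent.RS

noncomputable section

/-- all entries are at most `e` -/
def ALP_B (X : Matrix (Fin 2) (Fin 2) ℝ) (e : ℝ) : Prop := ∀ i j, |X i j| ≤ e

theorem ALP_B_add {X Y : Matrix (Fin 2) (Fin 2) ℝ} {x y : ℝ} (hX : ALP_B X x) (hY : ALP_B Y y) :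
    ALP_B (X + Y) (x + y) :=
  fun i j => (abs_add_le _ _).trans (add_le_add (hX i j) (hY i j))

theorem ALP_B_sub {X Y : Matrix (Fin 2) (Fin 2) ℝ} {x y : ℝ} (hX : ALP_B X x) (hY : ALP_B Y y) :
    ALP_B (X - Y) (x + y) :=
  fun i j => (abs_sub _ _).trans (add_le_add (hX i j) (hY i j))

theorem ALP_B_mono {X : Matrix (Fin 2) (Fin 2) ℝ} {x y : ℝ} (hX : ALP_B X x) (h : x ≤ y) : ALP_B X y :=
  fun i j => (hX i j).trans h

theorem ALP_B_nonneg {X : Matrix (Fin 2) (Fin 2) ℝ} {x : ℝ} (hX : ALP_B X x) : 0 ≤ x :=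
  (abs_nonneg _).trans (hX 0 0)

theorem ALP_B_mul {X Y : Matrix (Fin 2) (Fin 2) ℝ} {x y : ℝ} (hX : ALP_B X x) (hY : ALP_B Y y) :
    ALP_B (X * Y) (2 * x * y) := by
  intro i j
  rw [Matrix.mul_apply, Fin.sum_univ_two]
  have h0 : 0 ≤ x := ALP_B_nonneg hX
  calc |X i 0 * Y 0 j + X i 1 * Y 1 j| ≤ |X i 0 * Y 0 j| + |X i 1 * Y 1 j| := abs_add_le _ _
    _ ≤ x * y + x * y := by
        rw [abs_mul, abs_mul]
        exact add_le_add (mul_le_mul (hX _ _) (hY _ _) (abs_nonneg _) h0)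
          (mul_le_mul (hX _ _) (hY _ _) (abs_nonneg _) h0)
    _ = 2 * x * y := by ring

theorem ALP_nm (D : SL(2, ℝ)) (e : ℝ) : nm D ≤ e ↔ ALP_B (D.1 - 1) e := by
  unfold nm ALP_B
  rw [max_le_iff, max_le_iff, max_le_iff]
  constructor
  · rintro ⟨⟨h1, h2⟩, h3, h4⟩ i j
    fin_cases i <;> fin_cases j <;> simpa [Matrix.sub_apply] using by assumption
  · intro h
    have h1 := h 0 0
    have h2 := h 0 1
    have h3 := h 1 0
    have h4 := h 1 1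
    simp [Matrix.sub_apply] at h1 h2 h3 h4
    exact ⟨⟨h1, h2⟩, h3, h4⟩

theorem ALP_nmB (D : SL(2, ℝ)) : ALP_B (D.1 - 1) (nm D) := (ALP_nm D _).1 le_rfl

theorem ALP_sqrt {s s' : ℝ} (hs : 1 / 4 ≤ s) (hs' : 1 / 4 ≤ s') : |√s - √s'| ≤ |s - s'| := by
  have h1 : (1 / 2 : ℝ) ≤ √s := by
    rw [show (1 / 2 : ℝ) = √(1 / 4) by
      rw [show (1 / 4 : ℝ) = (1 / 2) ^ 2 by norm_num, Real.sqrt_sq (by norm_num)]]
    exact Real.sqrt_le_sqrt hs
  have h2 : (1 / 2 : ℝ) ≤ √s' := by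
    rw [show (1 / 2 : ℝ) = √(1 / 4) by
      rw [show (1 / 4 : ℝ) = (1 / 2) ^ 2 by norm_num, Real.sqrt_sq (by norm_num)]]
    exact Real.sqrt_le_sqrt hs'
  have h3 : (√s - √s') * (√s + √s') = s - s' := by
    have e1 := Real.mul_self_sqrt (show 0 ≤ s by linarith)
    have e2 := Real.mul_self_sqrt (show 0 ≤ s' by linarith)
    linear_combination e1 - e2
  rw [← h3, abs_mul, abs_of_nonneg (show 0 ≤ √s + √s' by linarith)]
  have := abs_nonneg (√s - √s')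
  nlinarith

theorem ALP_bc {b c : ℝ} (hb : |b| ≤ 1 / 8) (hc : |c| ≤ 1 / 8) : |b * c| ≤ 1 / 64 := by
  rw [abs_mul]
  calc |b| * |c| ≤ 1 / 8 * (1 / 8) := mul_le_mul hb hc (abs_nonneg _) (by norm_num)
    _ = 1 / 64 := by norm_num

theorem ALP_dg {b c : ℝ} (hb : |b| ≤ 1 / 8) (hc : |c| ≤ 1 / 8) :
    (dg b c).1 = !![√(1 + b * c), b; c, √(1 + b * c)] := by
  have h1 := abs_le.1 (ALP_bc hb hc)
  unfold dg
  rw [dif_pos (by linarith [h1.1])]

theorem ALP_dgd {b c b' c' e : ℝ} (hb : |b| ≤ 1 / 8) (hc : |c| ≤ 1 / 8) (hb' : |b'| ≤ 1 / 8) (hc' : |c'| ≤ 1 / 8)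
    (h1 : |b' - b| ≤ e) (h2 : |c' - c| ≤ e) (h3 : |b' * c' - b * c| ≤ e) :
    ALP_B ((dg b' c').1 - (dg b c).1) e := by
  rw [ALP_dg hb hc, ALP_dg hb' hc']
  have h4 := abs_le.1 (ALP_bc hb hc)
  have h5 := abs_le.1 (ALP_bc hb' hc')
  have h6 : |√(1 + b' * c') - √(1 + b * c)| ≤ e := by
    refine (ALP_sqrt (by linarith [h5.1]) (by linarith [h4.1])).trans ?_
    rw [show 1 + b' * c' - (1 + b * c) = b' * c' - b * c by ring]
    exact h3
  intro i j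
  fin_cases i <;> fin_cases j
  · simpa [Matrix.sub_apply] using h6
  · simpa [Matrix.sub_apply] using h1
  · simpa [Matrix.sub_apply] using h2
  · simpa [Matrix.sub_apply] using h6

theorem ALP_id (Ci C C' E : Matrix (Fin 2) (Fin 2) ℝ) (hC : Ci * C = 1) :
    Ci * E * C' - 1 - (E - 1) = (Ci - 1) * (E - 1) + (E - 1) * (C' - 1) + (Ci - 1) * (E - 1) * (C' - 1) +
      (C' - C) + (Ci - 1) * (C' - C) := by
  have h1 : (Ci - 1) * (E - 1) + (E - 1) * (C' - 1) + (Ci - 1) * (E - 1) * (C' - 1) =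
      Ci * (E - 1) * C' - (E - 1) := by noncomm_ring
  have h2 : (C' - C) + (Ci - 1) * (C' - C) = Ci * C' - 1 := by
    have h3 : (C' - C) + (Ci - 1) * (C' - C) = Ci * C' - Ci * C := by noncomm_ring
    rw [h3, hC]
  rw [add_assoc _ (C' - C), h2, h1]
  noncomm_ring

theorem ALP_core (hNMB : NMB_stmt) (b c c' : ℝ) (E : SL(2, ℝ)) (hb : |b| ≤ 1 / 100) (hc : |c| ≤ 1 / 100)
    (hc' : |c'| ≤ 1 / 100) (hcc : |c' - c| ≤ nm E / 100) :
    nm E / 2 ≤ nm ((dg b c)⁻¹ * E * dg b c') ∧ nm ((dg b c)⁻¹ * E * dg b c') ≤ 2 * nm E := by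
  obtain ⟨n0, -, ninv, -, -, -, -, ndg, -⟩ := hNMB
  have hn := n0 E
  have h8b : |b| ≤ 1 / 8 := hb.trans (by norm_num)
  have h8c : |c| ≤ 1 / 8 := hc.trans (by norm_num)
  have h8c' : |c'| ≤ 1 / 8 := hc'.trans (by norm_num)
  have k1 : ALP_B ((dg b c)⁻¹.1 - 1) (1 / 100) := by
    rw [← ALP_nm, ninv]
    exact (ndg b c h8b h8c).trans (max_le hb hc)
  have k2 : ALP_B ((dg b c').1 - 1) (1 / 100) := by
    rw [← ALP_nm]
    exact (ndg b c' h8b h8c').trans (max_le hb hc')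
  have k3 : ALP_B ((dg b c').1 - (dg b c).1) (nm E / 100) := by
    refine ALP_dgd h8b h8c h8b h8c' ?_ hcc ?_
    · rw [sub_self, abs_zero]; positivity
    · rw [← mul_sub, abs_mul]
      have := abs_nonneg (c' - c)
      nlinarith [abs_nonneg b]
  have k4 := ALP_nmB E
  have hC : ((dg b c)⁻¹).1 * (dg b c).1 = 1 := by
    have := congrArg Subtype.val (inv_mul_cancel (dg b c))
    exact this
  have k5 := ALP_B_add (ALP_B_add (ALP_B_add (ALP_B_add (ALP_B_mul k1 k4) (ALP_B_mul k4 k2))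
    (ALP_B_mul (ALP_B_mul k1 k4) k2)) k3) (ALP_B_mul k1 k3)
  rw [← ALP_id _ _ _ _ hC] at k5
  have k6 : ((dg b c)⁻¹ * E * dg b c').1 = ((dg b c)⁻¹).1 * E.1 * (dg b c').1 := rfl
  rw [← k6] at k5
  set R := (dg b c)⁻¹ * E * dg b c' with hR
  constructor
  · have k7 := ALP_B_sub (ALP_nmB R) k5
    rw [sub_sub_cancel, ← ALP_nm] at k7
    nlinarith
  · have k7 := ALP_B_add k5 (ALP_nmB E)
    rw [sub_add_cancel, ← ALP_nm] at k7
    nlinarith

theorem ALP_half (hNMB : NMB_stmt) (hSTP : STP_stmt) (δ : ℝ) (p q : SL(2, ℝ) → ℝ) (f : ℝ → SL(2, ℝ) → SL(2, ℝ))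
    (h0 : 0 ≤ δ) (h1 : δ ≤ 1 / 10000) (hF : Fld δ p q) (hf : Flw p q f) (b : ℝ) (hb : |b| ≤ 1 / 100) :
    Continuous (Sb p q f b) ∧ ∀ g E : SL(2, ℝ),
      nm E / 2 ≤ nm ((Sb p q f b g)⁻¹ * Sb p q f b (g * E)) ∧
      nm ((Sb p q f b g)⁻¹ * Sb p q f b (g * E)) ≤ 2 * nm E := by
  obtain ⟨s1, s2, s3⟩ := hSTP δ p q f h0 h1 hF hf
  have h8 : |b| ≤ 1 / 8 := hb.trans (by norm_num)
  have n0 := hNMB.1
  refine ⟨?_, fun g E => ?_⟩
  · have h2 : Continuous (fun g : SL(2, ℝ) => ((g, b) : SL(2, ℝ) × ℝ)) := by fun_prop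
    exact s3.comp_continuous h2 fun g => ⟨mem_univ _, abs_le.1 h8⟩
  · have h3 : (Sb p q f b g)⁻¹ * Sb p q f b (g * E) =
        (dg b (st p q f g b))⁻¹ * E * dg b (st p q f (g * E) b) := by
      unfold Sb
      group
    rw [h3]
    have c1 := (s1 g b h8).1
    have c2 := (s1 (g * E) b h8).1
    have c3 := s2 g E b b h8 h8
    rw [sub_self, abs_zero, zero_div, zero_add] at c3
    refine ALP_core hNMB b _ _ E hb (c1.trans (by linarith)) (c2.trans (by linarith)) ?_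
    rw [abs_sub_comm]
    refine c3.trans ?_
    have hn := n0 E
    have : 750 * δ * |b| ≤ 1 / 100 := by
      have := abs_nonneg b
      nlinarith
    nlinarith

theorem ALP_proof (h1 : NMB_stmt) (h2 : STP_stmt) (h3 : REV_stmt) : ALP_stmt := by
  intro δ p q f hδ0 hδ hF hf b hb
  obtain ⟨r1, r2, -⟩ := h3
  obtain ⟨a1, a2⟩ := ALP_half h1 h2 δ p q f hδ0 hδ hF hf b hb
  obtain ⟨b1, b2⟩ := ALP_half h1 h2 δ (rp p) (rq q) (rf f) hδ0 hδ (r1 δ p q hF) (r2 p q f hf) (-b)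
    (by rwa [abs_neg])
  obtain ⟨-, -, -, nJ, nJ', -, -, -, -⟩ := h1
  refine ⟨a1, ?_, fun g E _ => ?_⟩
  · unfold Ub
    exact (b1.comp (continuous_mul_const kJ)).mul continuous_const
  · refine ⟨(a2 g E).1, (a2 g E).2, ?_⟩
    have h4 := b2 (g * kJ) (kJ⁻¹ * E * kJ)
    rw [nJ', show g * kJ * (kJ⁻¹ * E * kJ) = g * E * kJ by group] at h4
    have h5 : (Ub p q f b g)⁻¹ * Ub p q f b (g * E) =
        kJ * ((Sb (rp p) (rq q) (rf f) (-b) (g * kJ))⁻¹ * Sb (rp p) (rq q) (rf f) (-b) (g * E * kJ)) * kJ⁻¹ := by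
      unfold Ub
      group
    rw [h5, nJ]
    exact h4

end

end Pool.Agent.VQE
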