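import Pool.Agent.helper62.VQ.SpecE

/-! # Row vqe:SME (MP_07c750_an): short times, differences -/

set_option autoImplicit false

open scoped MatrixGroups ContDiff Topology UpperHalfPlane
open UpperHalfPlane MeasureTheory Filter Set

namespace Pool.Agent.VQE

open Pool.Agent.RS

noncomputable section

theorem SME_e (A B : SL(2, ℝ)) :
    (A⁻¹ * B).1 0 0 = A.1 1 1 * B.1 0 0 - A.1 0 1 * B.1 1 0 ∧
    (A⁻¹ * B).1 0 1 = A.1 1 1 * B.1 0 1 - A.1 0 1 * B.1 1 1 ∧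
    (A⁻¹ * B).1 1 0 = A.1 0 0 * B.1 1 0 - A.1 1 0 * B.1 0 0 ∧
    (A⁻¹ * B).1 1 1 = A.1 0 0 * B.1 1 1 - A.1 1 0 * B.1 0 1 := by
  have h1 : (A⁻¹ * B).1 = A.1.adjugate * B.1 := rfl
  rw [h1, Matrix.adjugate_fin_two]
  refine ⟨?_, ?_, ?_, ?_⟩ <;> rw [Matrix.mul_apply, Fin.sum_univ_two] <;> simp <;> ring

/-- the equations of the header (with `σ = 1`) -/
theorem SME_ode (p q : SL(2, ℝ) → ℝ) (f : ℝ → SL(2, ℝ) → SL(2, ℝ)) (hf : Flw p q f) (g h : SL(2, ℝ)) (t : ℝ) :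
    HasDerivAt (fun s => ((f s g)⁻¹ * f s h).1 0 0)
      (((f t g)⁻¹ * f t h).1 0 0 * ((p (f t h) - p (f t g)) / 2) + ((f t g)⁻¹ * f t h).1 0 1 * q (f t h) +
        q (f t g) * ((f t g)⁻¹ * f t h).1 1 0) t ∧
    HasDerivAt (fun s => ((f s g)⁻¹ * f s h).1 0 1)
      (-(((f t g)⁻¹ * f t h).1 0 0 * q (f t h)) - ((f t g)⁻¹ * f t h).1 0 1 * ((p (f t h) + p (f t g)) / 2) +
        q (f t g) * ((f t g)⁻¹ * f t h).1 1 1) t ∧
    HasDerivAt (fun s => ((f s g)⁻¹ * f s h).1 1 0)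
      (((f t g)⁻¹ * f t h).1 1 0 * ((p (f t h) + p (f t g)) / 2) + ((f t g)⁻¹ * f t h).1 1 1 * q (f t h) -
        q (f t g) * ((f t g)⁻¹ * f t h).1 0 0) t ∧
    HasDerivAt (fun s => ((f s g)⁻¹ * f s h).1 1 1)
      (-(((f t g)⁻¹ * f t h).1 1 0 * q (f t h)) - ((f t g)⁻¹ * f t h).1 1 1 * ((p (f t h) - p (f t g)) / 2) -
        q (f t g) * ((f t g)⁻¹ * f t h).1 0 1) t := by
  have e := fun s => SME_e (f s g) (f s h)
  have g00 := hf.d0 0 t g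
  have g01 := hf.d1 0 t g
  have g10 := hf.d0 1 t g
  have g11 := hf.d1 1 t g
  have h00 := hf.d0 0 t h
  have h01 := hf.d1 0 t h
  have h10 := hf.d0 1 t h
  have h11 := hf.d1 1 t h
  rw [(e t).1, (e t).2.1, (e t).2.2.1, (e t).2.2.2]
  refine ⟨?_, ?_, ?_, ?_⟩
  · rw [show (fun s => ((f s g)⁻¹ * f s h).1 0 0) = fun s => (f s g).1 1 1 * (f s h).1 0 0 - (f s g).1 0 1 * (f s h).1 1 0
      from funext fun s => (e s).1]
    refine ((g11.mul h00).sub (g01.mul h10)).congr_deriv ?_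
    ring
  · rw [show (fun s => ((f s g)⁻¹ * f s h).1 0 1) = fun s => (f s g).1 1 1 * (f s h).1 0 1 - (f s g).1 0 1 * (f s h).1 1 1
      from funext fun s => (e s).2.1]
    refine ((g11.mul h01).sub (g01.mul h11)).congr_deriv ?_
    ring
  · rw [show (fun s => ((f s g)⁻¹ * f s h).1 1 0) = fun s => (f s g).1 0 0 * (f s h).1 1 0 - (f s g).1 1 0 * (f s h).1 0 0
      from funext fun s => (e s).2.2.1]
    refine ((g00.mul h10).sub (g10.mul h00)).congr_deriv ?_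
    ring
  · rw [show (fun s => ((f s g)⁻¹ * f s h).1 1 1) = fun s => (f s g).1 0 0 * (f s h).1 1 1 - (f s g).1 1 0 * (f s h).1 0 1
      from funext fun s => (e s).2.2.2]
    refine ((g00.mul h11).sub (g10.mul h01)).congr_deriv ?_
    ring

theorem SME_m {x y a b : ℝ} (hx : |x| ≤ a) (hy : |y| ≤ b) : |x * y| ≤ a * b := by
  rw [abs_mul]
  exact mul_le_mul hx hy (abs_nonneg _) ((abs_nonneg _).trans hx)

theorem SME_bound {a b c d P Q p q n δ : ℝ} (hδ : 0 ≤ δ) (hδ2 : δ ≤ 1 / 100) (hn0 : 0 ≤ n) (hn1 : n ≤ 1)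
    (ha : |a - 1| ≤ n) (hb : |b| ≤ n) (hc : |c| ≤ n) (hd : |d - 1| ≤ n) (hp : |p - 1| ≤ δ) (hP : |P - 1| ≤ δ)
    (hq : |q| ≤ δ) (hQ : |Q| ≤ δ) (hPp : |P - p| ≤ δ * n) (hQq : |Q - q| ≤ δ * n) :
    |a * ((P - p) / 2) + b * Q + q * c| ≤ 2 * n ∧ |-(a * Q) - b * ((P + p) / 2) + q * d| ≤ 2 * n ∧
    |c * ((P + p) / 2) + d * Q - q * a| ≤ 2 * n ∧ |-(c * Q) - d * ((P - p) / 2) - q * b| ≤ 2 * n := by
  have hδn : 0 ≤ δ * n := mul_nonneg hδ hn0
  have hδn2 : δ * n ≤ 1 / 100 * n := mul_le_mul_of_nonneg_right hδ2 hn0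
  have hnn : n * (δ * n) ≤ 1 * (δ * n) := mul_le_mul_of_nonneg_right hn1 hδn
  have m1 := abs_le.1 (SME_m ha hPp)
  have m2 := abs_le.1 (SME_m hb hQ)
  have m3 := abs_le.1 (SME_m hq hc)
  have m4 := abs_le.1 (SME_m ha hQ)
  have m5 := abs_le.1 (SME_m hb hP)
  have m6 := abs_le.1 (SME_m hb hp)
  have m7 := abs_le.1 (SME_m hq hd)
  have m8 := abs_le.1 (SME_m hc hP)
  have m9 := abs_le.1 (SME_m hc hp)
  have m10 := abs_le.1 (SME_m hd hQ)
  have m11 := abs_le.1 (SME_m hq ha)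
  have m12 := abs_le.1 (SME_m hc hQ)
  have m13 := abs_le.1 (SME_m hd hPp)
  have m14 := abs_le.1 (SME_m hq hb)
  have k1 := abs_le.1 hPp
  have k2 := abs_le.1 hQq
  have k3 := abs_le.1 hb
  have k4 := abs_le.1 hc
  refine ⟨?_, ?_, ?_, ?_⟩
  · rw [abs_le]
    constructor <;> nlinarith [m1.1, m1.2, m2.1, m2.2, m3.1, m3.2, k1.1, k1.2]
  · rw [abs_le]
    constructor <;> nlinarith [m4.1, m4.2, m5.1, m5.2, m6.1, m6.2, m7.1, m7.2, k2.1, k2.2, k3.1, k3.2]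
  · rw [abs_le]
    constructor <;> nlinarith [m8.1, m8.2, m9.1, m9.2, m10.1, m10.2, m11.1, m11.2, k2.1, k2.2, k4.1, k4.2]
  · rw [abs_le]
    constructor <;> nlinarith [m12.1, m12.2, m13.1, m13.2, m14.1, m14.2, k1.1, k1.2]

theorem SME_nm (D : SL(2, ℝ)) : |D.1 0 0 - 1| ≤ nm D ∧ |D.1 0 1| ≤ nm D ∧ |D.1 1 0| ≤ nm D ∧ |D.1 1 1 - 1| ≤ nm D := by
  unfold nm
  exact ⟨(le_max_left _ _).trans (le_max_left _ _), (le_max_right _ _).trans (le_max_left _ _),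
    (le_max_left _ _).trans (le_max_right _ _), (le_max_right _ _).trans (le_max_right _ _)⟩

theorem SME_exp {x : ℝ} (h0 : 0 ≤ x) (h1 : x ≤ 3 / 20) : Real.exp x ≤ 3 / 2 := by
  have h2 := Real.add_one_le_exp (-x)
  have h3 : Real.exp x * Real.exp (-x) = 1 := by
    rw [← Real.exp_add, add_neg_cancel, Real.exp_zero]
  have h4 := Real.exp_pos x
  nlinarith

theorem SME_mv (φ φ' : ℝ → ℝ) (t C : ℝ) (h : ∀ s : ℝ, |s| ≤ |t| → HasDerivAt φ (φ' s) s ∧ |φ' s| ≤ C) :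
    |φ t - φ 0| ≤ C * |t| := by
  have h1 := Convex.norm_image_sub_le_of_norm_hasDerivWithin_le (f := φ) (f' := φ') (C := C)
    (s := Icc (-|t|) |t|) (x := 0) (y := t) (fun s hs => ((h s (abs_le.2 hs)).1).hasDerivWithinAt)
    (fun s hs => (h s (abs_le.2 hs)).2) (convex_Icc _ _) ⟨by simp, abs_nonneg _⟩ (abs_le.1 le_rfl)
  rwa [Real.norm_eq_abs, Real.norm_eq_abs, sub_zero] at h1

theorem SME_proof (h1 : NMB_stmt) (h2 : GRO_stmt) : SME_stmt := by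
  intro δ p q f hδ0 hδ hF hf g E t ht hE
  have n0 := h1.1
  have hn : ∀ s : ℝ, |s| ≤ |t| → nm ((f s g)⁻¹ * f s (g * E)) ≤ 3 * nm E := by
    intro s hs
    have h3 := h2 δ p q f hδ0 hδ hF hf g E s
    have h4 : Real.exp ((1 + 20 * δ) * |s|) ≤ 3 / 2 := by
      apply SME_exp
      · exact mul_nonneg (by linarith) (abs_nonneg _)
      · have : (1 + 20 * δ) * |s| ≤ 6 / 5 * (1 / 8) :=
          mul_le_mul (by linarith) (hs.trans ht) (abs_nonneg _) (by norm_num)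
        linarith
    have h5 : 2 * nm E * Real.exp ((1 + 20 * δ) * |s|) ≤ 2 * nm E * (3 / 2) :=
      mul_le_mul_of_nonneg_left h4 (mul_nonneg (by norm_num) (n0 E))
    have h6 : min 1 (nm ((f s g)⁻¹ * f s (g * E))) ≤ 3 * nm E := by linarith
    rcases le_total 1 (nm ((f s g)⁻¹ * f s (g * E))) with h7 | h7
    · rw [min_eq_left h7] at h6
      linarith
    · rwa [min_eq_right h7] at h6
  have hb : ∀ s : ℝ, |s| ≤ |t| → _ := fun s hs => SME_bound (a := ((f s g)⁻¹ * f s (g * E)).1 0 0)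
    (b := ((f s g)⁻¹ * f s (g * E)).1 0 1) (c := ((f s g)⁻¹ * f s (g * E)).1 1 0)
    (d := ((f s g)⁻¹ * f s (g * E)).1 1 1) (P := p (f s (g * E))) (Q := q (f s (g * E))) (p := p (f s g))
    (q := q (f s g)) (n := nm ((f s g)⁻¹ * f s (g * E))) hδ0 hδ (n0 _) ((hn s hs).trans (by linarith))
    (SME_nm _).1 (SME_nm _).2.1 (SME_nm _).2.2.1 (SME_nm _).2.2.2 (hF.p0 _) (hF.p0 _) (hF.q0 _) (hF.q0 _)
    (by
      have := hF.p1 (f s g) ((f s g)⁻¹ * f s (g * E))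
      rwa [mul_inv_cancel_left] at this)
    (by
      have := hF.q1 (f s g) ((f s g)⁻¹ * f s (g * E))
      rwa [mul_inv_cancel_left] at this)
  have hz : (f 0 g)⁻¹ * f 0 (g * E) = E := by
    rw [hf.zero, hf.zero, inv_mul_cancel_left]
  have ho := fun s => SME_ode p q f hf g (g * E) s
  have fin : ∀ x : ℝ, |x| ≤ 6 * nm E * |t| → |x| ≤ 6 * |t| * nm E := by
    intro x hx
    linarith [mul_right_comm 6 (nm E) |t|]
  intro i j
  fin_cases i <;> fin_cases j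
  · have h3 := SME_mv (fun s => ((f s g)⁻¹ * f s (g * E)).1 0 0) _ t (6 * nm E) fun s hs =>
      ⟨(ho s).1, (hb s hs).1.trans (by linarith [hn s hs])⟩
    simp only [hz] at h3
    exact fin _ h3
  · have h3 := SME_mv (fun s => ((f s g)⁻¹ * f s (g * E)).1 0 1) _ t (6 * nm E) fun s hs =>
      ⟨(ho s).2.1, (hb s hs).2.1.trans (by linarith [hn s hs])⟩
    simp only [hz] at h3
    exact fin _ h3
  · have h3 := SME_mv (fun s => ((f s g)⁻¹ * f s (g * E)).1 1 0) _ t (6 * nm E) fun s hs =>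
      ⟨(ho s).2.2.1, (hb s hs).2.2.1.trans (by linarith [hn s hs])⟩
    simp only [hz] at h3
    exact fin _ h3
  · have h3 := SME_mv (fun s => ((f s g)⁻¹ * f s (g * E)).1 1 1) _ t (6 * nm E) fun s hs =>
      ⟨(ho s).2.2.2, (hb s hs).2.2.2.trans (by linarith [hn s hs])⟩
    simp only [hz] at h3
    exact fin _ h3

end

end Pool.Agent.VQE
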