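import Pool.Agent.helper27.VQE.ALP

/-! # Row vqe:LCL (MP_07c750_an): local coordinates -/

set_option autoImplicit false

open scoped MatrixGroups ContDiff Topology UpperHalfPlane
open UpperHalfPlane MeasureTheory Filter Set

namespace Pool.Agent.VQE

open Pool.Agent.RS

noncomputable section

theorem LCL_mul {X X' Y Y' : Matrix (Fin 2) (Fin 2) ℝ} {x dx y dy : ℝ} (hX' : ALP_B X' x) (hY : ALP_B Y y)
    (hX : ALP_B (X - X') dx) (hY' : ALP_B (Y - Y') dy) : ALP_B (X * Y - X' * Y') (2 * dx * y + 2 * x * dy) := by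
  have h := ALP_B_add (ALP_B_mul hX hY) (ALP_B_mul hX' hY')
  have h2 : (X - X') * Y + X' * (Y - Y') = X * Y - X' * Y' := by noncomm_ring
  rwa [h2] at h

theorem LCL_prod {a b c a' b' c' : Matrix (Fin 2) (Fin 2) ℝ} {r m : ℝ} (ha' : ALP_B a' r)
    (hb : ALP_B b r) (hb' : ALP_B b' r) (hc : ALP_B c r) (hA : ALP_B (a - a') m)
    (hB : ALP_B (b - b') m) (hC : ALP_B (c - c') m) :
    ALP_B ((1 + a) * (1 + b) * (1 + c) - (1 + a') * (1 + b') * (1 + c') - ((a - a') + (b - b') + (c - c')))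
      (12 * r * m + 12 * r ^ 2 * m) := by
  have h1 := LCL_mul ha' hb hA hB
  have h2 := LCL_mul ha' hc hA hC
  have h3 := LCL_mul hb' hc hB hC
  have h4 := LCL_mul (ALP_B_mul ha' hb') hc h1 hC
  have h5 := ALP_B_add (ALP_B_add (ALP_B_add h1 h2) h3) h4
  have h6 : (a * b - a' * b') + (a * c - a' * c') + (b * c - b' * c') + (a * b * c - a' * b' * c') =
      (1 + a) * (1 + b) * (1 + c) - (1 + a') * (1 + b') * (1 + c') - ((a - a') + (b - b') + (c - c')) := by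
    noncomm_ring
  rw [h6] at h5
  refine ALP_B_mono h5 (le_of_eq ?_)
  ring

theorem LCL_kJ {b c : ℝ} (hb : |b| ≤ 1 / 8) (hc : |c| ≤ 1 / 8) :
    (kJ * dg b c * kJ⁻¹).1 = !![√(1 + b * c), -c; -b, √(1 + b * c)] := by
  have h1 : (kJ * dg b c * kJ⁻¹).1 = kJ.1 * (dg b c).1 * kJ.1.adjugate := rfl
  rw [h1, ALP_dg hb hc, Matrix.adjugate_fin_two]
  unfold kJ
  ext i j
  fin_cases i <;> fin_cases j <;> simp [Matrix.mul_apply, Fin.sum_univ_two]

/-- the middle factor -/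
def LCL_Bm (p q : SL(2, ℝ) → ℝ) (f : ℝ → SL(2, ℝ) → SL(2, ℝ)) (y : ℝ) (F : SL(2, ℝ)) : SL(2, ℝ) :=
  kJ * dg (-y) (st (rp p) (rq q) (rf f) (F * kJ) (-y)) * kJ⁻¹

theorem LCL_Ub (p q : SL(2, ℝ) → ℝ) (f : ℝ → SL(2, ℝ) → SL(2, ℝ)) (y : ℝ) (F : SL(2, ℝ)) :
    Ub p q f y F = F * LCL_Bm p q f y F := by
  unfold Ub Sb LCL_Bm
  group

/-- the point and its three factors -/
theorem LCL_psi (p q : SL(2, ℝ) → ℝ) (f : ℝ → SL(2, ℝ) → SL(2, ℝ)) (g : SL(2, ℝ)) (z : Fin 3 → ℝ) :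
    g⁻¹ * psi p q f g z = (g⁻¹ * f (z 0) g) * LCL_Bm p q f (z 1) (f (z 0) g) *
      dg (z 2) (st p q f (f (z 0) g * LCL_Bm p q f (z 1) (f (z 0) g)) (z 2)) := by
  unfold psi
  rw [LCL_Ub]
  unfold Sb
  group

theorem LCL_comp {X Y Z : Type*} [TopologicalSpace X] [TopologicalSpace Y] [TopologicalSpace Z] (G : Y → Z)
    (φ : X → Y) (s : Set X) (t : Set Y) (hG : ContinuousOn G t) (hφ : ContinuousOn φ s)
    (h : ∀ x ∈ s, φ x ∈ t) : ContinuousOn (fun x => G (φ x)) s := hG.comp hφ h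

theorem LCL_cU (p q : SL(2, ℝ) → ℝ) (f : ℝ → SL(2, ℝ) → SL(2, ℝ))
    (c2 : ContinuousOn (fun x : SL(2, ℝ) × ℝ => Sb (rp p) (rq q) (rf f) x.2 x.1) (univ ×ˢ Icc (-(1 / 8)) (1 / 8))) :
    ContinuousOn (fun x : SL(2, ℝ) × ℝ => Ub p q f x.2 x.1) (univ ×ˢ Icc (-(1 / 8)) (1 / 8)) := by
  have c4 : Continuous (fun x : SL(2, ℝ) × ℝ => ((x.1 * kJ, -x.2) : SL(2, ℝ) × ℝ)) := by
    fun_prop
  have c5 := LCL_comp (fun x : SL(2, ℝ) × ℝ => Sb (rp p) (rq q) (rf f) x.2 x.1)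
    (fun x : SL(2, ℝ) × ℝ => ((x.1 * kJ, -x.2) : SL(2, ℝ) × ℝ)) (univ ×ˢ Icc (-(1 / 8)) (1 / 8))
    (univ ×ˢ Icc (-(1 / 8)) (1 / 8)) c2 c4.continuousOn (by
      rintro ⟨g, b⟩ ⟨-, hb1, hb2⟩
      refine ⟨mem_univ _, ?_, ?_⟩
      · show -(1 / 8) ≤ -b
        have : b ≤ 1 / 8 := hb2
        linarith
      · show -b ≤ 1 / 8
        have : -(1 / 8) ≤ b := hb1
        linarith)
  exact c5.mul continuousOn_const

theorem LCL_cF (f : ℝ → SL(2, ℝ) → SL(2, ℝ)) (cf : Continuous (fun x : ℝ × SL(2, ℝ) => f x.1 x.2)) :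
    Continuous (fun x : SL(2, ℝ) × (Fin 3 → ℝ) => ((f (x.2 0) x.1, x.2 1) : SL(2, ℝ) × ℝ)) := by
  have h1 : Continuous (fun x : SL(2, ℝ) × (Fin 3 → ℝ) => ((x.2 0, x.1) : ℝ × SL(2, ℝ))) := by fun_prop
  have h2 : Continuous (fun x : SL(2, ℝ) × (Fin 3 → ℝ) => f (x.2 0) x.1) := cf.comp h1
  have h3 : Continuous (fun x : SL(2, ℝ) × (Fin 3 → ℝ) => x.2 1) := by fun_prop
  exact h2.prodMk h3

theorem LCL_cV (p q : SL(2, ℝ) → ℝ) (f : ℝ → SL(2, ℝ) → SL(2, ℝ))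
    (cf : Continuous (fun x : ℝ × SL(2, ℝ) => f x.1 x.2))
    (c3 : ContinuousOn (fun x : SL(2, ℝ) × ℝ => Ub p q f x.2 x.1) (univ ×ˢ Icc (-(1 / 8)) (1 / 8))) :
    ContinuousOn (fun x : SL(2, ℝ) × (Fin 3 → ℝ) => Ub p q f (x.2 1) (f (x.2 0) x.1))
      (univ ×ˢ Icc (fun _ => -(1 / 1000)) (fun _ => 1 / 1000)) := by
  exact LCL_comp (fun x : SL(2, ℝ) × ℝ => Ub p q f x.2 x.1)
    (fun x : SL(2, ℝ) × (Fin 3 → ℝ) => ((f (x.2 0) x.1, x.2 1) : SL(2, ℝ) × ℝ))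
    (univ ×ˢ Icc (fun _ => -(1 / 1000)) (fun _ => 1 / 1000))
    (univ ×ˢ Icc (-(1 / 8)) (1 / 8)) c3 (LCL_cF f cf).continuousOn (by
      rintro ⟨g, z⟩ ⟨-, hz1, hz2⟩
      refine ⟨mem_univ _, ?_, ?_⟩
      · show -(1 / 8) ≤ z 1
        have : -(1 / 1000) ≤ z 1 := hz1 1
        linarith
      · show z 1 ≤ 1 / 8
        have : z 1 ≤ 1 / 1000 := hz2 1
        linarith)

theorem LCL_cont (hSTP : STP_stmt) (hREV : REV_stmt) (δ : ℝ) (p q : SL(2, ℝ) → ℝ) (f : ℝ → SL(2, ℝ) → SL(2, ℝ))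
    (h0 : 0 ≤ δ) (h1 : δ ≤ 1 / 10000) (hF : Fld δ p q) (hf : Flw p q f) :
    ContinuousOn (fun x : SL(2, ℝ) × (Fin 3 → ℝ) => psi p q f x.1 x.2)
      (univ ×ˢ Icc (fun _ => -(1 / 1000)) (fun _ => 1 / 1000)) := by
  have c1 := (hSTP δ p q f h0 h1 hF hf).2.2
  have c2 := (hSTP δ (rp p) (rq q) (rf f) h0 h1 (hREV.1 δ p q hF) (hREV.2.1 p q f hf)).2.2
  have c5 := LCL_cV p q f hf.cont (LCL_cU p q f c2)
  have c6 : Continuous (fun x : SL(2, ℝ) × (Fin 3 → ℝ) => x.2 2) := by fun_prop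
  have c7 : ContinuousOn (fun x : SL(2, ℝ) × (Fin 3 → ℝ) =>
      ((Ub p q f (x.2 1) (f (x.2 0) x.1), x.2 2) : SL(2, ℝ) × ℝ))
      (univ ×ˢ Icc (fun _ => -(1 / 1000)) (fun _ => 1 / 1000)) := c5.prodMk c6.continuousOn
  exact LCL_comp (fun x : SL(2, ℝ) × ℝ => Sb p q f x.2 x.1)
    (fun x : SL(2, ℝ) × (Fin 3 → ℝ) => ((Ub p q f (x.2 1) (f (x.2 0) x.1), x.2 2) : SL(2, ℝ) × ℝ))
    (univ ×ˢ Icc (fun _ => -(1 / 1000)) (fun _ => 1 / 1000))
    (univ ×ˢ Icc (-(1 / 8)) (1 / 8)) c1 c7 (by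
      rintro ⟨g, z⟩ ⟨-, hz1, hz2⟩
      refine ⟨mem_univ _, ?_, ?_⟩
      · show -(1 / 8) ≤ z 2
        have : -(1 / 1000) ≤ z 2 := hz1 2
        linarith
      · show z 2 ≤ 1 / 8
        have : z 2 ≤ 1 / 1000 := hz2 2
        linarith)

theorem LCL_two {y y' c c' m κ : ℝ} (hy : |y| ≤ 1 / 1000) (hc' : |c'| ≤ 1 / 4000) (hm : 0 ≤ m)
    (h1 : |y - y'| ≤ m) (h2 : |c - c'| ≤ κ * m) (hκ : κ ≤ 3 / 10) :
    |y * c - y' * c'| ≤ 6 / 10000 * m := by
  have h3 : y * c - y' * c' = y * (c - c') + (y - y') * c' := by ring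
  rw [h3]
  refine (abs_add_le _ _).trans ?_
  rw [abs_mul, abs_mul]
  have a1 := abs_nonneg y
  have a2 := abs_nonneg (c - c')
  have a3 := abs_nonneg (y - y')
  have a4 := abs_nonneg c'
  have h4 : |y| * |c - c'| ≤ 1 / 1000 * (3 / 10 * m) :=
    mul_le_mul hy (h2.trans (mul_le_mul_of_nonneg_right hκ hm)) a2 (by norm_num)
  have h5 : |y - y'| * |c'| ≤ m * (1 / 4000) := mul_le_mul h1 hc' a4 hm
  linarith

theorem LCL_est (hNMB : NMB_stmt) (hSML : SML_stmt) (hSTP : STP_stmt) (hREV : REV_stmt) (δ : ℝ)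
    (p q : SL(2, ℝ) → ℝ) (f : ℝ → SL(2, ℝ) → SL(2, ℝ))
    (h0 : 0 ≤ δ) (h1 : δ ≤ 1 / 10000) (hF : Fld δ p q) (hf : Flw p q f) (g : SL(2, ℝ))
    (t y x t' y' x' m : ℝ) (ht : |t| ≤ 1 / 1000) (hy : |y| ≤ 1 / 1000) (hx : |x| ≤ 1 / 1000)
    (ht' : |t'| ≤ 1 / 1000) (hy' : |y'| ≤ 1 / 1000) (hx' : |x'| ≤ 1 / 1000)
    (mt : |t - t'| ≤ m) (my : |y - y'| ≤ m) (mx : |x - x'| ≤ m) (M M' : SL(2, ℝ))
    (hM : M = (g⁻¹ * f t g) * LCL_Bm p q f y (f t g) * dg x (st p q f (f t g * LCL_Bm p q f y (f t g)) x))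
    (hM' : M' = (g⁻¹ * f t' g) * LCL_Bm p q f y' (f t' g) *
      dg x' (st p q f (f t' g * LCL_Bm p q f y' (f t' g)) x')) :
    nm (M⁻¹ * M') ≤ 4 * m ∧ |M.1 0 1 - M'.1 0 1 - (x - x')| ≤ 3 / 10 * m ∧
    |M.1 1 0 - M'.1 1 0 - (y - y')| ≤ 3 / 10 * m ∧
    |M.1 0 0 - M'.1 0 0 - (t - t') / 2| ≤ 1 / 20 * m ∧
    |M.1 1 1 - M'.1 1 1 + (t - t') / 2| ≤ 1 / 20 * m := by
  have hm : 0 ≤ m := (abs_nonneg _).trans mt
  obtain ⟨n0, -, ninv, nJ, nJ', nmul, -, ndg, -⟩ := hNMB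
  obtain ⟨s1, s2, -⟩ := hSTP δ p q f h0 h1 hF hf
  obtain ⟨u1, u2, -⟩ := hSTP δ (rp p) (rq q) (rf f) h0 h1 (hREV.1 δ p q hF) (hREV.2.1 p q f hf)
  have hδ2 : δ ≤ 1 / 100 := h1.trans (by norm_num)
  -- first factor
  obtain ⟨A1, A2, A3, A4, A5⟩ := hSML δ p q f h0 hδ2 hF hf g (1 / 1000) t t' (by norm_num) ht ht'
  have A1' := (hSML δ p q f h0 hδ2 hF hf g (1 / 1000) t' t' (by norm_num) ht' ht').1
  have hsm : (2 * (1 / 1000 : ℝ) + 2 * δ) * |t - t'| ≤ 22 / 10000 * m :=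
    mul_le_mul (by linarith) mt (abs_nonneg _) (by norm_num)
  have hFF : nm ((f t g)⁻¹ * f t' g) ≤ m := by
    have e1 : f t' g = f (t' - t) (f t g) := by
      rw [← hf.add, sub_add_cancel]
    rw [e1]
    have e2 : |t' - t| ≤ 1 / 8 := by
      have := abs_le.1 ht
      have := abs_le.1 ht'
      rw [abs_le]
      constructor <;> linarith
    refine ((hSML δ p q f h0 hδ2 hF hf (f t g) (1 / 8) (t' - t) (t' - t) le_rfl e2 e2).1).trans ?_
    rwa [abs_sub_comm]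
  -- second factor
  set F := f t g with hFd
  set F' := f t' g with hFd'
  set cB := st (rp p) (rq q) (rf f) (F * kJ) (-y) with hcB
  set cB' := st (rp p) (rq q) (rf f) (F' * kJ) (-y') with hcB'
  have hyn : |(-y)| ≤ 1 / 8 := by rw [abs_neg]; linarith
  have hyn' : |(-y')| ≤ 1 / 8 := by rw [abs_neg]; linarith
  have B1 : |cB| ≤ 1 / 4000 := by
    have := (u1 (F * kJ) (-y) hyn).1
    rw [abs_neg] at this
    linarith
  have B1' : |cB'| ≤ 1 / 4000 := by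
    have := (u1 (F' * kJ) (-y') hyn').1
    rw [abs_neg] at this
    linarith
  have B2 : |cB - cB'| ≤ 2501 / 10000 * m := by
    have e1 := u2 (F * kJ) (kJ⁻¹ * (F⁻¹ * F') * kJ) (-y) (-y') hyn hyn'
    rw [show F * kJ * (kJ⁻¹ * (F⁻¹ * F') * kJ) = F' * kJ by group, nJ', abs_neg] at e1
    refine e1.trans ?_
    have e2 : |(-y) - (-y')| ≤ m := by
      rw [show (-y) - (-y') = -(y - y') by ring, abs_neg]
      exact my
    have e3 : 750 * δ * |y| ≤ 1 / 10000 := by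
      have := abs_nonneg y
      nlinarith
    have e4 : 750 * δ * |y| * nm (F⁻¹ * F') ≤ 1 / 10000 * m :=
      mul_le_mul e3 hFF (n0 _) (by norm_num)
    linarith
  have hcB8 : |cB| ≤ 1 / 8 := B1.trans (by norm_num)
  have hcB8' : |cB'| ≤ 1 / 8 := B1'.trans (by norm_num)
  set B := LCL_Bm p q f y F with hB
  set B' := LCL_Bm p q f y' F' with hB'
  have EB : B.1 = !![√(1 + (-y) * cB), -cB; -(-y), √(1 + (-y) * cB)] := LCL_kJ hyn hcB8
  have EB' : B'.1 = !![√(1 + (-y') * cB'), -cB'; -(-y'), √(1 + (-y') * cB')] := LCL_kJ hyn' hcB8'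
  have B3 : |(-y) * cB - (-y') * cB'| ≤ 6 / 10000 * m :=
    LCL_two (by rwa [abs_neg]) B1' hm (by rwa [show (-y) - (-y') = -(y - y') by ring, abs_neg]) B2 (by norm_num)
  have k1 := abs_le.1 (ALP_bc hyn hcB8)
  have k2 := abs_le.1 (ALP_bc hyn' hcB8')
  have B4 : |√(1 + (-y) * cB) - √(1 + (-y') * cB')| ≤ 6 / 10000 * m := by
    refine (ALP_sqrt (by linarith [k1.1]) (by linarith [k2.1])).trans ?_
    rw [show 1 + (-y) * cB - (1 + (-y') * cB') = (-y) * cB - (-y') * cB' by ring]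
    exact B3
  have nB : nm B ≤ 1 / 1000 := by
    rw [hB]
    unfold LCL_Bm
    rw [nJ]
    refine (ndg _ _ hyn hcB8).trans (max_le (by rwa [abs_neg]) (B1.trans (by norm_num)))
  have nB' : nm B' ≤ 1 / 1000 := by
    rw [hB']
    unfold LCL_Bm
    rw [nJ]
    refine (ndg _ _ hyn' hcB8').trans (max_le (by rwa [abs_neg]) (B1'.trans (by norm_num)))
  have B5 : ALP_B (B.1 - B'.1) m := by
    rw [EB, EB']
    intro i j
    fin_cases i <;> fin_cases j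
    · have : |√(1 + (-y) * cB) - √(1 + (-y') * cB')| ≤ m := by linarith
      simpa [Matrix.sub_apply] using this
    · have : |-cB - -cB'| ≤ m := by
        rw [show -cB - -cB' = -(cB - cB') by ring, abs_neg]
        linarith
      simpa [Matrix.sub_apply] using this
    · have : |(- -y) - (- -y')| ≤ m := by
        rw [neg_neg, neg_neg]
        exact my
      simpa [Matrix.sub_apply] using this
    · have : |√(1 + (-y) * cB) - √(1 + (-y') * cB')| ≤ m := by linarith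
      simpa [Matrix.sub_apply] using this
  -- third factor
  have hUU : nm ((F * B)⁻¹ * (F' * B')) ≤ 21 / 10 * m := by
    have e0 : (F * B)⁻¹ * (F' * B') = B⁻¹ * (F⁻¹ * F') * B' := by group
    rw [e0, ALP_nm]
    have b1 : ALP_B ((B⁻¹).1 - 1) (1 / 1000) := by
      rw [← ALP_nm, ninv]
      exact nB
    have b2 : ALP_B ((F⁻¹ * F').1 - 1) m := by
      rw [← ALP_nm]
      exact hFF
    have b3 : ALP_B (B'.1 - 1) (1 / 1000) := by
      rw [← ALP_nm]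
      exact nB'
    have b4 : ALP_B (B'.1 - B.1) m := by
      intro i j
      have := B5 i j
      rw [Matrix.sub_apply, abs_sub_comm] at this
      rw [Matrix.sub_apply]
      exact this
    have hC : (B⁻¹).1 * B.1 = 1 := congrArg Subtype.val (inv_mul_cancel B)
    have b5 := ALP_B_add (ALP_B_add (ALP_B_add (ALP_B_add (ALP_B_mul b1 b2) (ALP_B_mul b2 b3))
      (ALP_B_mul (ALP_B_mul b1 b2) b3)) b4) (ALP_B_mul b1 b4)
    rw [← ALP_id _ _ _ _ hC] at b5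
    have b6 := ALP_B_add b5 b2
    rw [sub_add_cancel] at b6
    refine ALP_B_mono b6 ?_
    linarith
  set cC := st p q f (F * B) x with hcC
  set cC' := st p q f (F' * B') x' with hcC'
  have hx8 : |x| ≤ 1 / 8 := by linarith
  have hx8' : |x'| ≤ 1 / 8 := by linarith
  have C1 : |cC| ≤ 1 / 4000 := by
    have := (s1 (F * B) x hx8).1
    linarith
  have C1' : |cC'| ≤ 1 / 4000 := by
    have := (s1 (F' * B') x' hx8').1
    linarith
  have C2 : |cC - cC'| ≤ 2503 / 10000 * m := by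
    have e1 := s2 (F * B) ((F * B)⁻¹ * (F' * B')) x x' hx8 hx8'
    rw [show F * B * ((F * B)⁻¹ * (F' * B')) = F' * B' by group] at e1
    refine e1.trans ?_
    have e3 : 750 * δ * |x| ≤ 1 / 10000 := by
      have := abs_nonneg x
      nlinarith
    have e4 : 750 * δ * |x| * nm ((F * B)⁻¹ * (F' * B')) ≤ 1 / 10000 * (21 / 10 * m) :=
      mul_le_mul e3 hUU (n0 _) (by norm_num)
    linarith
  have hcC8 : |cC| ≤ 1 / 8 := C1.trans (by norm_num)
  have hcC8' : |cC'| ≤ 1 / 8 := C1'.trans (by norm_num)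
  have EC := ALP_dg hx8 hcC8
  have EC' := ALP_dg hx8' hcC8'
  have C3 : |x * cC - x' * cC'| ≤ 6 / 10000 * m := LCL_two hx C1' hm mx C2 (by norm_num)
  have k3 := abs_le.1 (ALP_bc hx8 hcC8)
  have k4 := abs_le.1 (ALP_bc hx8' hcC8')
  have C4 : |√(1 + x * cC) - √(1 + x' * cC')| ≤ 6 / 10000 * m := by
    refine (ALP_sqrt (by linarith [k3.1]) (by linarith [k4.1])).trans ?_
    rw [show 1 + x * cC - (1 + x' * cC') = x * cC - x' * cC' by ring]
    exact C3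
  have nC : nm (dg x cC) ≤ 1 / 1000 := (ndg _ _ hx8 hcC8).trans (max_le hx (C1.trans (by norm_num)))
  have C5 : ALP_B ((dg x cC).1 - (dg x' cC').1) m := by
    refine ALP_dgd hx8' hcC8' hx8 hcC8 mx (C2.trans (by linarith)) (C3.trans (by linarith))
  set A := g⁻¹ * F with hA
  set A' := g⁻¹ * F' with hA'
  set C := dg x cC with hC
  set C' := dg x' cC' with hC'
  have A6 : ALP_B (A.1 - A'.1) m := by
    have q1 := abs_le.1 (A2.trans hsm)
    have q2 := abs_le.1 (A3.trans hsm)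
    have q3 := abs_le.1 (A4.trans hsm)
    have q4 := abs_le.1 (A5.trans hsm)
    have q5 := abs_le.1 mt
    intro i j
    rw [Matrix.sub_apply, abs_le]
    fin_cases i <;> fin_cases j
    · constructor
      · show -m ≤ A.1 0 0 - A'.1 0 0
        linarith [q1.1, q1.2, q5.1, q5.2]
      · show A.1 0 0 - A'.1 0 0 ≤ m
        linarith [q1.1, q1.2, q5.1, q5.2]
    · constructor
      · show -m ≤ A.1 0 1 - A'.1 0 1
        linarith [q3.1, q3.2]
      · show A.1 0 1 - A'.1 0 1 ≤ m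
        linarith [q3.1, q3.2]
    · constructor
      · show -m ≤ A.1 1 0 - A'.1 1 0
        linarith [q4.1, q4.2]
      · show A.1 1 0 - A'.1 1 0 ≤ m
        linarith [q4.1, q4.2]
    · constructor
      · show -m ≤ A.1 1 1 - A'.1 1 1
        linarith [q2.1, q2.2, q5.1, q5.2]
      · show A.1 1 1 - A'.1 1 1 ≤ m
        linarith [q2.1, q2.2, q5.1, q5.2]
  -- the product
  have a1 : ALP_B (A'.1 - 1) (1 / 1000) := by
    rw [← ALP_nm]
    exact A1'.trans ht'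
  have a2 : ALP_B (B.1 - 1) (1 / 1000) := by
    rw [← ALP_nm]
    exact nB
  have a3 : ALP_B (B'.1 - 1) (1 / 1000) := by
    rw [← ALP_nm]
    exact nB'
  have a4 : ALP_B (C.1 - 1) (1 / 1000) := by
    rw [← ALP_nm]
    exact nC
  have P1 := LCL_prod (a := A.1 - 1) (b := B.1 - 1) (c := C.1 - 1) (a' := A'.1 - 1) (b' := B'.1 - 1)
    (c' := C'.1 - 1) (r := 1 / 1000) (m := m) a1 a2 a3 a4 (by rwa [sub_sub_sub_cancel_right])
    (by rwa [sub_sub_sub_cancel_right]) (by rwa [sub_sub_sub_cancel_right])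
  simp only [add_sub_cancel, sub_sub_sub_cancel_right] at P1
  have EM : M.1 = A.1 * B.1 * C.1 := by
    rw [hM]
    rfl
  have EM' : M'.1 = A'.1 * B'.1 * C'.1 := by
    rw [hM']
    rfl
  rw [← EM, ← EM'] at P1
  have P2 : ∀ i j, |M.1 i j - M'.1 i j - ((A.1 i j - A'.1 i j) + (B.1 i j - B'.1 i j) + (C.1 i j - C'.1 i j))| ≤
      121 / 10000 * m := by
    intro i j
    have := P1 i j
    simp only [Matrix.sub_apply, Matrix.add_apply] at this
    refine this.trans ?_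
    linarith
  have eB00 : B.1 0 0 - B'.1 0 0 = √(1 + (-y) * cB) - √(1 + (-y') * cB') := by
    rw [EB, EB']
    rfl
  have eB01 : B.1 0 1 - B'.1 0 1 = -(cB - cB') := by
    rw [EB, EB']
    show -cB - -cB' = _
    ring
  have eB10 : B.1 1 0 - B'.1 1 0 = y - y' := by
    rw [EB, EB']
    show - -y - - -y' = _
    ring
  have eB11 : B.1 1 1 - B'.1 1 1 = √(1 + (-y) * cB) - √(1 + (-y') * cB') := by
    rw [EB, EB']
    rfl
  have eC00 : C.1 0 0 - C'.1 0 0 = √(1 + x * cC) - √(1 + x' * cC') := by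
    rw [EC, EC']
    rfl
  have eC01 : C.1 0 1 - C'.1 0 1 = x - x' := by
    rw [EC, EC']
    rfl
  have eC10 : C.1 1 0 - C'.1 1 0 = cC - cC' := by
    rw [EC, EC']
    rfl
  have eC11 : C.1 1 1 - C'.1 1 1 = √(1 + x * cC) - √(1 + x' * cC') := by
    rw [EC, EC']
    rfl
  have w00 := P2 0 0
  have w01 := P2 0 1
  have w10 := P2 1 0
  have w11 := P2 1 1
  rw [eB00, eC00] at w00
  rw [eB01, eC01] at w01
  rw [eB10, eC10] at w10
  rw [eB11, eC11] at w11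
  have q1 := abs_le.1 (A2.trans hsm)
  have q2 := abs_le.1 (A3.trans hsm)
  have q3 := abs_le.1 (A4.trans hsm)
  have q4 := abs_le.1 (A5.trans hsm)
  have q5 := abs_le.1 mt
  have q6 := abs_le.1 mx
  have q7 := abs_le.1 my
  have q8 := abs_le.1 B2
  have q9 := abs_le.1 B4
  have q10 := abs_le.1 C2
  have q11 := abs_le.1 C4
  rw [abs_le] at w00 w01 w10 w11
  have R00 : |M.1 0 0 - M'.1 0 0 - (t - t') / 2| ≤ 1 / 20 * m := by
    rw [abs_le]
    constructor <;> linarith [q1.1, q1.2, q9.1, q9.2, q11.1, q11.2, w00.1, w00.2]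
  have R11 : |M.1 1 1 - M'.1 1 1 + (t - t') / 2| ≤ 1 / 20 * m := by
    rw [abs_le]
    constructor <;> linarith [q2.1, q2.2, q9.1, q9.2, q11.1, q11.2, w11.1, w11.2]
  have R01 : |M.1 0 1 - M'.1 0 1 - (x - x')| ≤ 3 / 10 * m := by
    rw [abs_le]
    constructor <;> linarith [q3.1, q3.2, q8.1, q8.2, w01.1, w01.2]
  have R10 : |M.1 1 0 - M'.1 1 0 - (y - y')| ≤ 3 / 10 * m := by
    rw [abs_le]
    constructor <;> linarith [q4.1, q4.2, q10.1, q10.2, w10.1, w10.2]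
  refine ⟨?_, R01, R10, R00, R11⟩
  -- the distance
  have D1 : ALP_B (M'.1 - M.1) (13 / 10 * m) := by
    rw [abs_le] at R00 R11 R01 R10
    intro i j
    rw [Matrix.sub_apply, abs_le]
    fin_cases i <;> fin_cases j
    · constructor
      · show -(13 / 10 * m) ≤ M'.1 0 0 - M.1 0 0
        linarith [R00.1, R00.2, q5.1, q5.2]
      · show M'.1 0 0 - M.1 0 0 ≤ 13 / 10 * m
        linarith [R00.1, R00.2, q5.1, q5.2]
    · constructor
      · show -(13 / 10 * m) ≤ M'.1 0 1 - M.1 0 1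
        linarith [R01.1, R01.2, q6.1, q6.2]
      · show M'.1 0 1 - M.1 0 1 ≤ 13 / 10 * m
        linarith [R01.1, R01.2, q6.1, q6.2]
    · constructor
      · show -(13 / 10 * m) ≤ M'.1 1 0 - M.1 1 0
        linarith [R10.1, R10.2, q7.1, q7.2]
      · show M'.1 1 0 - M.1 1 0 ≤ 13 / 10 * m
        linarith [R10.1, R10.2, q7.1, q7.2]
    · constructor
      · show -(13 / 10 * m) ≤ M'.1 1 1 - M.1 1 1
        linarith [R11.1, R11.2, q5.1, q5.2]
      · show M'.1 1 1 - M.1 1 1 ≤ 13 / 10 * m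
        linarith [R11.1, R11.2, q5.1, q5.2]
  have nA : nm A ≤ 1 / 1000 := A1.trans ht
  have nM : nm M ≤ 1 / 100 := by
    have e1 : nm (A * B) ≤ 3 / 1000 := by
      refine (nmul A B).trans ?_
      have := n0 A
      have := n0 B
      nlinarith
    have e2 : M = A * B * C := hM
    rw [e2]
    refine (nmul (A * B) C).trans ?_
    have := n0 (A * B)
    have := n0 C
    nlinarith
  rw [ALP_nm]
  have D2 : ALP_B ((M⁻¹).1 - 1) (1 / 100) := by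
    rw [← ALP_nm, ninv]
    exact nM
  have D3 := ALP_B_add D1 (ALP_B_mul D2 D1)
  have D4 : (M⁻¹ * M').1 - 1 = (M'.1 - M.1) + ((M⁻¹).1 - 1) * (M'.1 - M.1) := by
    have e1 : (M⁻¹).1 * M.1 = 1 := congrArg Subtype.val (inv_mul_cancel M)
    have e2 : (M⁻¹ * M').1 = (M⁻¹).1 * M'.1 := rfl
    have e3 : (M'.1 - M.1) + ((M⁻¹).1 - 1) * (M'.1 - M.1) = (M⁻¹).1 * M'.1 - (M⁻¹).1 * M.1 := by
      noncomm_ring
    rw [e3, e1, e2]
  rw [D4]
  refine ALP_B_mono D3 ?_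
  linarith

theorem LCL_proof (h1 : NMB_stmt) (h2 : SML_stmt) (h4 : STP_stmt) (h5 : REV_stmt) : LCL_stmt := by
  intro δ p q f hδ0 hδ hF hf
  refine ⟨LCL_cont h4 h5 δ p q f hδ0 hδ hF hf, ?_⟩
  intro g z hz z' hz'
  have a : ∀ i, |z i| ≤ 1 / 1000 := fun i => abs_le.2 ⟨hz.1 i, hz.2 i⟩
  have a' : ∀ i, |z' i| ≤ 1 / 1000 := fun i => abs_le.2 ⟨hz'.1 i, hz'.2 i⟩
  have d : ∀ i, |z i - z' i| ≤ dist z z' := fun i => by
    rw [← Real.dist_eq]
    exact dist_le_pi_dist z z' i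
  have key := LCL_est h1 h2 h4 h5 δ p q f hδ0 hδ hF hf g (z 0) (z 1) (z 2) (z' 0) (z' 1) (z' 2) (dist z z')
    (a 0) (a 1) (a 2) (a' 0) (a' 1) (a' 2) (d 0) (d 1) (d 2) (g⁻¹ * psi p q f g z) (g⁻¹ * psi p q f g z')
    (LCL_psi p q f g z) (LCL_psi p q f g z')
  rw [show (g⁻¹ * psi p q f g z)⁻¹ * (g⁻¹ * psi p q f g z') = (psi p q f g z)⁻¹ * psi p q f g z' by group] at key
  exact key

end

end Pool.Agent.VQE
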